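import Pool.Agent.W945.Pw.Stm

set_option autoImplicit false

namespace Pool.Agent.W778.Pw.SEP

open Finset Pool.Agent.W945.Pw

theorem glue {V : Type} [DecidableEq V] (R : V → V → Prop) (W A S B : Finset V) (β₁ β₂ β : ℝ)
    (hW : ∀ v, v ∈ W ↔ v ∈ A ∨ v ∈ S ∨ v ∈ B)
    (hAB : ∀ u ∈ A, ∀ v ∈ B, u ≠ v ∧ ¬ R u v ∧ ¬ R v u)
    (h1 : HasPathDec R A β₁) (h2 : HasPathDec R B β₂)
    (hb1 : β₁ + S.card ≤ β) (hb2 : β₂ + S.card ≤ β) (hb3 : (S.card : ℝ) ≤ β) :
    HasPathDec R W β := by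
  obtain ⟨r₁, b₁, c1, c2, c3, c4, c5⟩ := h1
  obtain ⟨r₂, b₂, d1, d2, d3, d4, d5⟩ := h2
  set bag : ℕ → Finset V := fun t => if t < r₁ then b₁ t ∪ S else if t < r₁ + r₂ then
    b₂ (t - r₁) ∪ S else S with hbag
  have e1 : ∀ t, t < r₁ → bag t = b₁ t ∪ S := fun t ht => if_pos ht
  have e2 : ∀ t, r₁ ≤ t → t < r₁ + r₂ → bag t = b₂ (t - r₁) ∪ S := fun t ht ht' => by
    simp only [hbag, if_neg (not_lt.2 ht), if_pos ht']
  have e3 : ∀ t, r₁ + r₂ ≤ t → bag t = S := fun t ht => by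
    simp only [hbag, if_neg (not_lt.2 ht), if_neg (not_lt.2 (le_trans (Nat.le_add_right _ _) ht))]
  have hS : ∀ t, ∀ v ∈ S, v ∈ bag t := by
    intro t v hv
    rcases lt_or_ge t r₁ with h | h
    · rw [e1 t h]; exact mem_union_right _ hv
    · rcases lt_or_ge t (r₁ + r₂) with h' | h'
      · rw [e2 t h h']; exact mem_union_right _ hv
      · rw [e3 t h']; exact hv
  have hcov : ∀ v ∈ W, ∃ t < r₁ + r₂ + 1, v ∈ bag t := by
    intro v hv
    rcases (hW v).1 hv with h | h | h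
    · obtain ⟨t, ht, hvt⟩ := c2 v h
      exact ⟨t, by omega, by rw [e1 t ht]; exact mem_union_left _ hvt⟩
    · exact ⟨r₁ + r₂, by omega, hS _ _ h⟩
    · obtain ⟨t, ht, hvt⟩ := d2 v h
      refine ⟨r₁ + t, by omega, ?_⟩
      rw [e2 _ (by omega) (by omega), Nat.add_sub_cancel_left]
      exact mem_union_left _ hvt
  refine ⟨r₁ + r₂ + 1, bag, ?_, hcov, ?_, ?_, ?_⟩
  · intro t v hv
    rw [hW]
    rcases lt_or_ge t r₁ with h | h
    · rw [e1 t h, mem_union] at hv
      rcases hv with hv | hv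
      · exact Or.inl (c1 t hv)
      · exact Or.inr (Or.inl hv)
    · rcases lt_or_ge t (r₁ + r₂) with h' | h'
      · rw [e2 t h h', mem_union] at hv
        rcases hv with hv | hv
        · exact Or.inr (Or.inr (d1 _ hv))
        · exact Or.inr (Or.inl hv)
      · rw [e3 t h'] at hv
        exact Or.inr (Or.inl hv)
  · intro u hu v hv huv
    rcases (hW u).1 hu with hu' | hu' | hu'
    · rcases (hW v).1 hv with hv' | hv' | hv'
      · obtain ⟨t, ht, h1, h2⟩ := c3 u hu' v hv' huv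
        refine ⟨t, by omega, ?_, ?_⟩ <;> rw [e1 t ht]
        · exact mem_union_left _ h1
        · exact mem_union_left _ h2
      · obtain ⟨t, ht, h1⟩ := hcov u hu
        exact ⟨t, ht, h1, hS t v hv'⟩
      · exact absurd huv (hAB u hu' v hv').2.1
    · obtain ⟨t, ht, h1⟩ := hcov v hv
      exact ⟨t, ht, hS t u hu', h1⟩
    · rcases (hW v).1 hv with hv' | hv' | hv'
      · exact absurd huv (hAB v hv' u hu').2.2
      · obtain ⟨t, ht, h1⟩ := hcov u hu
        exact ⟨t, ht, h1, hS t v hv'⟩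
      · obtain ⟨t, ht, h1, h2⟩ := d3 u hu' v hv' huv
        refine ⟨r₁ + t, by omega, ?_, ?_⟩ <;>
          rw [e2 _ (by omega) (by omega), Nat.add_sub_cancel_left]
        · exact mem_union_left _ h1
        · exact mem_union_left _ h2
  · intro v t₁ t₂ t₃ h12 h23 hv1 hv3
    by_cases hvS : v ∈ S
    · exact hS _ _ hvS
    have key : ∀ t, v ∈ bag t → (t < r₁ ∧ v ∈ b₁ t) ∨ (r₁ ≤ t ∧ t < r₁ + r₂ ∧ v ∈ b₂ (t - r₁)) := by
      intro t hv
      rcases lt_or_ge t r₁ with h | h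
      · rw [e1 t h, mem_union] at hv
        exact Or.inl ⟨h, hv.resolve_right hvS⟩
      · rcases lt_or_ge t (r₁ + r₂) with h' | h'
        · rw [e2 t h h', mem_union] at hv
          exact Or.inr ⟨h, h', hv.resolve_right hvS⟩
        · rw [e3 t h'] at hv
          exact absurd hv hvS
    rcases key t₁ hv1 with ⟨a1, a2⟩ | ⟨a1, a2, a3⟩
    · rcases key t₃ hv3 with ⟨b1', b2'⟩ | ⟨b1', b2', b3'⟩
      · rw [e1 t₂ (by omega)]
        exact mem_union_left _ (c4 v t₁ t₂ t₃ h12 h23 a2 b2')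
      · exact absurd rfl (hAB v (c1 _ a2) v (d1 _ b3')).1
    · rcases key t₃ hv3 with ⟨b1', b2'⟩ | ⟨b1', b2', b3'⟩
      · omega
      · rw [e2 t₂ (by omega) (by omega)]
        exact mem_union_left _ (d4 v (t₁ - r₁) (t₂ - r₁) (t₃ - r₁) (by omega) (by omega) a3 b3')
  · intro t
    rcases lt_or_ge t r₁ with h | h
    · rw [e1 t h]
      have h3 : (((b₁ t ∪ S).card : ℕ) : ℝ) ≤ (b₁ t).card + S.card := by
        exact_mod_cast card_union_le _ _
      linarith [c5 t]
    · rcases lt_or_ge t (r₁ + r₂) with h' | h'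
      · rw [e2 t h h']
        have h3 : (((b₂ (t - r₁) ∪ S).card : ℕ) : ℝ) ≤ (b₂ (t - r₁)).card + S.card := by
          exact_mod_cast card_union_le _ _
        linarith [d5 (t - r₁)]
      · rw [e3 t h']
        exact hb3

theorem main : SEP.Stm := by
  intro V _ _ R θ c γ hθ hθ1 hc hγ hsep W
  have hθγ : θ ^ γ < 1 := Real.rpow_lt_one hθ hθ1 hγ
  have hθγ0 : 0 ≤ θ ^ γ := Real.rpow_nonneg hθ _
  have hden : 0 < 1 - θ ^ γ := by linarith
  induction hn : W.card using Nat.strong_induction_on generalizing W with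
  | _ n ih =>
    subst hn
    rcases W.eq_empty_or_nonempty with h0 | hne
    · subst h0
      refine ⟨0, fun _ => ∅, ?_, ?_, ?_, ?_, ?_⟩
      · intro t; exact Subset.refl _
      · intro v hv; simp at hv
      · intro u hu; simp at hu
      · intro v t₁ t₂ t₃ _ _ h _; exact h
      · intro t
        simp only [card_empty, Nat.cast_zero]
        rw [Real.zero_rpow hγ.ne', mul_zero, zero_div]
    · obtain ⟨A, S, B, hW, hAB, hA, hB, hS⟩ := hsep W hne
      have hWpos : (0 : ℝ) < W.card := by exact_mod_cast hne.card_pos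
      have hlt : θ * W.card < W.card := by nlinarith
      have hA' : A.card < W.card := by
        have : (A.card : ℝ) < W.card := lt_of_le_of_lt hA hlt
        exact_mod_cast this
      have hB' : B.card < W.card := by
        have : (B.card : ℝ) < W.card := lt_of_le_of_lt hB hlt
        exact_mod_cast this
      have decA := ih A.card hA' A rfl
      have decB := ih B.card hB' B rfl
      have hWγ : 0 ≤ (W.card : ℝ) ^ γ := Real.rpow_nonneg hWpos.le _
      have bound : ∀ X : Finset V, (X.card : ℝ) ≤ θ * W.card →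
          c * (X.card : ℝ) ^ γ / (1 - θ ^ γ) + S.card ≤ c * (W.card : ℝ) ^ γ / (1 - θ ^ γ) := by
        intro X hX
        have h1 : (X.card : ℝ) ^ γ ≤ θ ^ γ * (W.card : ℝ) ^ γ := by
          rw [← Real.mul_rpow hθ hWpos.le]
          exact Real.rpow_le_rpow (Nat.cast_nonneg _) hX hγ.le
        have h2 : c * (X.card : ℝ) ^ γ / (1 - θ ^ γ) ≤
            c * (θ ^ γ * (W.card : ℝ) ^ γ) / (1 - θ ^ γ) :=
          div_le_div_of_nonneg_right (mul_le_mul_of_nonneg_left h1 hc) hden.le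
        have h3 : c * (θ ^ γ * (W.card : ℝ) ^ γ) / (1 - θ ^ γ) + c * (W.card : ℝ) ^ γ =
            c * (W.card : ℝ) ^ γ / (1 - θ ^ γ) := by
          field_simp
          ring
        linarith
      have hS2 : (S.card : ℝ) ≤ c * (W.card : ℝ) ^ γ / (1 - θ ^ γ) := by
        refine hS.trans ?_
        rw [le_div_iff₀ hden]
        have : 0 ≤ c * (W.card : ℝ) ^ γ := mul_nonneg hc hWγ
        nlinarith
      exact glue R W A S B _ _ _ hW hAB decA decB (bound A hA) (bound B hB) hS2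

end Pool.Agent.W778.Pw.SEP
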